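import Mathlib
import Pool.Agent.R450.Cl.Appl

/-!
# MP_5deb6a_an: Clarkson type inequalities for n-tuples of operators

Both questions are answered in the affirmative, for every complex Hilbert space.
-/

namespace Pool.Agent.Results.MP_5deb6a_an.TupleClarkson

open ContinuousLinearMap Module
open scoped ENNReal NNReal

universe u
variable {H : Type u} [NormedAddCommGroup H] [InnerProductSpace ℂ H] [CompleteSpace H]

/-- The sum of the `p`-th powers of the singular values of `A`, that is `tr |A| ^ p`: the singular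
values are the square roots of the eigenvalues `μ ≥ 0` of `A† A`, counted with multiplicity. -/
noncomputable def schattenPow (p : ℝ) (A : H →L[ℂ] H) : ℝ≥0∞ :=
  ∑' μ : ℝ≥0, (finrank ℂ (End.eigenspace ((adjoint A ∘L A : H →L[ℂ] H) : End ℂ H)
    ((μ : ℝ) : ℂ)) : ℝ≥0∞) * (μ : ℝ≥0∞) ^ (p / 2)

/-- The Schatten class `S_p`: the compact operators with `tr |A| ^ p < ∞`. -/
def SchattenClass (p : ℝ) (A : H →L[ℂ] H) : Prop :=
  IsCompactOperator A ∧ schattenPow p A < ⊤

/-- The Schatten norm `‖A‖_p = (tr |A| ^ p) ^ (1/p)`. -/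
noncomputable def schattenNorm (p : ℝ) (A : H →L[ℂ] H) : ℝ :=
  (schattenPow p A).toReal ^ (1 / p)

/-- `L = n (∑ ‖A_j‖_p ^ p) ^ (q/p)`. -/
noncomputable def lhs {n : ℕ} (p q : ℝ) (A : Fin n → H →L[ℂ] H) : ℝ :=
  n * (∑ j, schattenNorm p (A j) ^ p) ^ (q / p)

/-- `R = ‖∑ A_j‖_p ^ q + ∑_{j < k} ‖A_j - A_k‖_p ^ q`. -/
noncomputable def rhs {n : ℕ} (p q : ℝ) (A : Fin n → H →L[ℂ] H) : ℝ :=
  schattenNorm p (∑ j, A j) ^ q +
    ∑ x ∈ (Finset.univ : Finset (Fin n × Fin n)).filter (fun x => x.1 < x.2),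
      schattenNorm p (A x.1 - A x.2) ^ q

/-- the coefficient matrix -/
def mat (n : ℕ) : Option {x : Fin n × Fin n // x.1 < x.2} → Fin n → ℝ
  | none, _ => 1
  | some x, j => (if j = x.1.1 then 1 else 0) - (if j = x.1.2 then 1 else 0)

theorem mat_le (n : ℕ) (l : Option {x : Fin n × Fin n // x.1 < x.2}) (j : Fin n) :
    |mat n l j| ≤ 1 := by
  cases l with
  | none => simp [mat]
  | some x =>
    simp only [mat]
    split_ifs <;> norm_num

theorem sum_lt_symm {n : ℕ} (g : Fin n → Fin n → ℝ) (hs : ∀ a b, g a b = g b a)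
    (hd : ∀ a, g a a = 0) :
    2 * ∑ x : {x : Fin n × Fin n // x.1 < x.2}, g x.1.1 x.1.2 = ∑ a, ∑ b, g a b := by
  have h1 : ∑ x : {x : Fin n × Fin n // x.1 < x.2}, g x.1.1 x.1.2
      = ∑ a, ∑ b, if a < b then g a b else 0 := by
    rw [← Fintype.sum_prod_type' (f := fun a b => if a < b then g a b else 0),
      ← Finset.sum_filter]
    exact (Finset.sum_subtype _ (fun x => by simp) (fun x : Fin n × Fin n => g x.1 x.2)).symm
  have h2 : ∑ a, ∑ b, (if a < b then g a b else 0) = ∑ a, ∑ b, if b < a then g a b else 0 := by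
    rw [Finset.sum_comm]
    refine Finset.sum_congr rfl fun a _ => Finset.sum_congr rfl fun b _ => ?_
    rw [hs]
  rw [h1, two_mul]
  nth_rw 2 [h2]
  rw [← Finset.sum_add_distrib]
  refine Finset.sum_congr rfl fun a _ => ?_
  rw [← Finset.sum_add_distrib]
  refine Finset.sum_congr rfl fun b _ => ?_
  rcases lt_trichotomy a b with h | h | h
  · rw [if_pos h, if_neg (not_lt.2 h.le), add_zero]
  · subst h
    rw [if_neg (lt_irrefl _), add_zero, hd]
  · rw [if_neg (not_lt.2 h.le), if_pos h, zero_add]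

theorem mat_orth (n : ℕ) (j j' : Fin n) :
    ∑ l, mat n l j * mat n l j' = if j = j' then (n : ℝ) else 0 := by
  rw [Fintype.sum_option]
  simp only [mat, mul_one]
  let g : Fin n → Fin n → ℝ := fun a b =>
    ((if j = a then 1 else 0) - (if j = b then 1 else 0)) *
      ((if j' = a then 1 else 0) - (if j' = b then 1 else 0))
  have h := sum_lt_symm g (fun a b => by simp only [g]; ring) (fun a => by simp only [g]; ring)
  have h2 : ∑ a, ∑ b, g a b = 2 * ((if j = j' then (n : ℝ) else 0) - 1) := by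
    have h3 : ∀ a b, g a b = (if j = a then 1 else 0) * (if j' = a then 1 else 0)
        - (if j = a then 1 else 0) * (if j' = b then 1 else 0)
        - (if j' = a then 1 else 0) * (if j = b then 1 else 0)
        + (if j = b then 1 else 0) * (if j' = b then 1 else 0) := fun a b => by
      simp only [g]; ring
    simp only [h3, Finset.sum_add_distrib, Finset.sum_sub_distrib, ← Finset.mul_sum,
      ← Finset.sum_mul, Finset.sum_const, Finset.card_univ, Fintype.card_fin, nsmul_eq_mul,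
      Finset.sum_ite_eq, Finset.mem_univ, if_true, mul_one, mul_ite, mul_zero, ite_mul, one_mul,
      zero_mul]
    by_cases hjj : j = j'
    · subst hjj
      simp
      ring
    · simp [hjj, Ne.symm hjj]
      norm_num
  rw [h2] at h
  have h4 : ∑ x : {x : Fin n × Fin n // x.1 < x.2}, g x.1.1 x.1.2
      = (if j = j' then (n : ℝ) else 0) - 1 := by linarith
  change 1 + ∑ x : {x : Fin n × Fin n // x.1 < x.2}, g x.1.1 x.1.2 = _
  rw [h4]
  ring

theorem schattenPow_eq (p : ℝ) (A : H →L[ℂ] H) :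
    schattenPow p A = Pool.Agent.Helper872.Sch.trPow p A := rfl

theorem norm_pow_p {p : ℝ} (hp : 0 < p) (A : H →L[ℂ] H) :
    schattenNorm p A ^ p = (schattenPow p A).toReal := by
  unfold schattenNorm
  rw [← Real.rpow_mul ENNReal.toReal_nonneg, one_div, inv_mul_cancel₀ hp.ne', Real.rpow_one]

theorem norm_pow_q {p q : ℝ} (A : H →L[ℂ] H) :
    schattenNorm p A ^ q = (schattenPow p A).toReal ^ (q / p) := by
  unfold schattenNorm
  rw [← Real.rpow_mul ENNReal.toReal_nonneg]
  congr 1
  ring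

theorem lhs_eq {n : ℕ} {p q : ℝ} (hp : 0 < p) (A : Fin n → H →L[ℂ] H) :
    lhs p q A = n * (∑ j, (schattenPow p (A j)).toReal) ^ (q / p) := by
  unfold lhs
  simp only [norm_pow_p hp]

theorem rhs_eq {n : ℕ} {p q : ℝ} (A : Fin n → H →L[ℂ] H) :
    rhs p q A = ∑ l, (schattenPow p (∑ j, (mat n l j : ℂ) • A j)).toReal ^ (q / p) := by
  unfold rhs
  rw [Fintype.sum_option]
  congr 1
  · rw [norm_pow_q]
    congr 3
    refine Finset.sum_congr rfl fun j _ => ?_
    simp [mat]
  · simp only [norm_pow_q]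
    have h : ∀ x : {x : Fin n × Fin n // x.1 < x.2},
        ∑ j, (mat n (some x) j : ℂ) • A j = A x.1.1 - A x.1.2 := by
      intro x
      have h5 : ∀ a b : Fin n, (((if a = b then 1 else 0 : ℝ)) : ℂ) = if a = b then 1 else 0 := by
        intro a b
        split_ifs <;> simp
      simp only [mat, Complex.ofReal_sub, h5, sub_smul, Finset.sum_sub_distrib, ite_smul, one_smul,
        zero_smul, Finset.sum_ite_eq', Finset.mem_univ, if_true]
    simp only [h]
    exact Finset.sum_subtype _ (fun x => by simp)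
      (fun x : Fin n × Fin n => (schattenPow p (A x.1 - A x.2)).toReal ^ (q / p))

theorem conj_of {p q : ℝ} (hp : 1 < p) (hpq : 1 / p + 1 / q = 1) : p.HolderConjugate q := by
  rw [Real.holderConjugate_iff]
  exact ⟨hp, by simpa [one_div] using hpq⟩

/-- **MP_5deb6a_an, Q1 and Q2.** For every complex Hilbert space `H`, every `n ≥ 2` and all
`A_0, …, A_{n-1}` in the Schatten class `S_p`: if `2 ≤ p` then `L ≤ R`, and if `1 < p ≤ 2` then
`R ≤ L`. -/
theorem result :
    (∀ (H : Type u) [NormedAddCommGroup H] [InnerProductSpace ℂ H] [CompleteSpace H]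
      (n : ℕ) (_ : 2 ≤ n) (p q : ℝ) (_ : 2 ≤ p) (_ : 1 / p + 1 / q = 1)
      (A : Fin n → H →L[ℂ] H) (_ : ∀ j, SchattenClass p (A j)), lhs p q A ≤ rhs p q A) ∧
    (∀ (H : Type u) [NormedAddCommGroup H] [InnerProductSpace ℂ H] [CompleteSpace H]
      (n : ℕ) (_ : 2 ≤ n) (p q : ℝ) (_ : 1 < p) (_ : p ≤ 2) (_ : 1 / p + 1 / q = 1)
      (A : Fin n → H →L[ℂ] H) (_ : ∀ j, SchattenClass p (A j)), rhs p q A ≤ lhs p q A) := by
  constructor
  · intro H _ _ _ n hn p q hp hpq A hA
    rw [lhs_eq (by linarith), rhs_eq]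
    exact Pool.Agent.R450.Cl.lower (by positivity) (mat_le n) (mat_orth n)
      (conj_of (by linarith) hpq) hp A (fun j => (hA j).1) (fun j => (hA j).2.ne)
  · intro H _ _ _ n hn p q hp1 hp2 hpq A hA
    rw [lhs_eq (by linarith), rhs_eq]
    exact Pool.Agent.R450.Cl.upper (by positivity) (mat_le n) (mat_orth n)
      (conj_of hp1 hpq) hp2 A (fun j => (hA j).1) (fun j => (hA j).2.ne)

end Pool.Agent.Results.MP_5deb6a_an.TupleClarkson
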